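import Pool.Agent.H31DW.Gen

/-!
# The input of the completeness argument
-/

set_option autoImplicit false

open LaurentPolynomial

universe u

namespace Pool.Agent.DWC

variable {k : Type u} [Field k] {X : Nbhd k}

/-- Localisation modulo the powers of `I` gives localisation modulo `I J`. -/
theorem loc₀_of {J : Ideal X.B}
    (loc : ∀ (N : ℕ) (b : X.B), ∃ ν : ℕ, ∃ c ∈ X.I ^ N, (X.x : X.B) ^ ν * b + c ∈ X.B₀)
    {N : ℕ} (hN : X.I ^ N ≤ J) (j : X.B) (hj : j ∈ J) :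
    ∃ ν : ℕ, ∃ δ ∈ X.I * J, (X.x : X.B) ^ ν * j + δ ∈ part₀ J := by
  obtain ⟨ν, c, hc, h⟩ := loc (N + 1) j
  rw [pow_succ'] at hc
  have hc' : c ∈ X.I * J := Ideal.mul_mono_right hN hc
  exact ⟨ν, c, hc', J.add_mem (J.mul_mem_left _ hj) (IJ_le hc'), h⟩

theorem loc₁_of {J : Ideal X.B}
    (loc : ∀ (N : ℕ) (b : X.B), ∃ ν : ℕ, ∃ c ∈ X.I ^ N, (X.w : X.B) ^ ν * b + c ∈ X.B₁)
    {N : ℕ} (hN : X.I ^ N ≤ J) (j : X.B) (hj : j ∈ J) :
    ∃ ν : ℕ, ∃ δ ∈ X.I * J, (X.w : X.B) ^ ν * j + δ ∈ part₁ J := by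
  obtain ⟨ν, c, hc, h⟩ := loc (N + 1) j
  rw [pow_succ'] at hc
  have hc' : c ∈ X.I * J := Ideal.mul_mono_right hN hc
  exact ⟨ν, c, hc', J.add_mem (J.mul_mem_left _ hj) (IJ_le hc'), h⟩

/-- A power of `I` lies in `J` if `I / J` is an iterated extension of `𝒪_C(-1)`. -/
theorem Chain.pow_le {J : Ideal X.B} (hJ : Chain J) : ∃ N : ℕ, X.I ^ N ≤ J := by
  obtain ⟨L, P, hP0, hPL, hP⟩ := hJ
  have key : ∀ j ≤ L, X.I ^ (j + 1) ≤ P (L - j) := by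
    intro j
    induction j with
    | zero => intro _; rw [zero_add, pow_one, Nat.sub_zero, hPL]
    | succ j ih =>
      intro hj
      have h1 : L - j = (L - (j + 1)) + 1 := by omega
      obtain ⟨r, e, e', -, -, -, -, hI⟩ := (hP (L - (j + 1)) (by omega)).2.data
      rw [pow_succ', Ideal.mul_le]
      intro a ha b hb
      have h2 := ih (by omega) hb
      rw [h1] at h2
      exact hI a ha b h2
  refine ⟨L + 1, ?_⟩
  have h := key L le_rfl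
  rwa [Nat.sub_self, hP0] at h

theorem Chain.le {J : Ideal X.B} (hJ : Chain J) : J ≤ X.I := by
  obtain ⟨L, P, hP0, hPL, hP⟩ := hJ
  have key : ∀ j ≤ L, P 0 ≤ P j := by
    intro j
    induction j with
    | zero => intro _; exact le_rfl
    | succ j ih => intro hj; exact (ih (by omega)).trans (hP j (by omega)).1
  rw [← hP0, ← hPL]
  exact key L le_rfl

/-- The two decompositions used in the completeness argument. -/
theorem dec_hyps {J : Ideal X.B} (hJ : Chain J) (hP : NonNeg J (part₀ J) (part₁ J))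
    (loc₀ : ∀ j ∈ J, ∃ ν : ℕ, ∃ δ ∈ X.I * J, (X.x : X.B) ^ ν * j + δ ∈ part₀ J)
    (loc₁ : ∀ j ∈ J, ∃ ν : ℕ, ∃ δ ∈ X.I * J, (X.w : X.B) ^ ν * j + δ ∈ part₁ J) :
    (∀ f ∈ X.I * J, Dec (part₀ X.I * part₀ J) (part₁ X.I * part₁ J) (J * J) f) ∧
      ∀ m, ∀ f ∈ J ^ m, Dec (part₀ J ^ m) (part₁ J ^ m) (J ^ (m + 1)) f := by
  have hl₀ : ∀ v ∈ J, ∃ n : ℕ, ∃ c ∈ part₀ J, (X.x : X.B) ^ n * v - c ∈ X.I * J := by
    intro v hv
    obtain ⟨n, δ, hδ, h⟩ := loc₀ v hv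
    refine ⟨n, _, h, ?_⟩
    have h2 : (X.x : X.B) ^ n * v - (X.x ^ n * v + δ) = -δ := by ring
    rw [h2]
    exact (X.I * J).neg_mem hδ
  have hl₁ : ∀ v ∈ J, ∃ n : ℕ, ∃ c ∈ part₁ J, (X.w : X.B) ^ n * v - c ∈ X.I * J := by
    intro v hv
    obtain ⟨n, δ, hδ, h⟩ := loc₁ v hv
    refine ⟨n, _, h, ?_⟩
    have h2 : (X.w : X.B) ^ n * v - (X.w ^ n * v + δ) = -δ := by ring
    rw [h2]
    exact (X.I * J).neg_mem hδ
  refine ⟨dec_I_mul hJ (fun f hf => hf.1) (fun f hf => hf.1) hP, fun m f hf => ?_⟩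
  rw [pow_succ']
  exact dec_of_nonneg hJ (pow_part₀_le m) (pow_part₁_le m)
    (nonneg_pow (le_span_Gam₀ hP hl₀ hl₁) m) f hf

end Pool.Agent.DWC
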