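import Pool.Agent.H31DW.Step3

/-!
# Generation by sections modulo `I J`, and powers of `J`
-/

set_option autoImplicit false

open LaurentPolynomial

universe u

namespace Pool.Agent.DWC

variable {k : Type u} [Field k] {X : Nbhd k}

/-- Sections over `U₀` which agree modulo `I J` with a section over `U₁`. -/
def Gam₀ (J : Ideal X.B) : Set X.B := {h | h ∈ part₀ J ∧ ∃ h' ∈ part₁ J, h - h' ∈ X.I * J}

/-- Sections over `U₁` which agree modulo `I J` with a section over `U₀`. -/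
def Gam₁ (J : Ideal X.B) : Set X.B := {h | h ∈ part₁ J ∧ ∃ h' ∈ part₀ J, h - h' ∈ X.I * J}

theorem xw_mem : (X.x : X.B) * X.w - 1 ∈ X.I := by
  rw [Nbhd.mem_I, map_sub, map_mul, map_one, X.res_x, X.res_w, ← T_add]
  simp

theorem xw_mul {J : Ideal X.B} {j : X.B} (hj : j ∈ J) : (X.x : X.B) * X.w * j - j ∈ X.I * J := by
  have h : (X.x : X.B) * X.w * j - j = (X.x * X.w - 1) * j := by ring
  rw [h]
  exact Ideal.mul_mem_mul xw_mem hj

theorem IJ_le {J : Ideal X.B} : X.I * J ≤ J := Ideal.mul_le_right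

section

variable {J : Ideal X.B} (hP : NonNeg J (part₀ J) (part₁ J))

include hP

/-- one step at infinity -/
theorem step₁ {c : X.B} (hc : c ∈ part₁ J) :
    ∃ p ∈ Gam₁ J, ∃ a ∈ part₁ J, c = p + X.w * a := by
  obtain ⟨a₀, ha₀, a, ha, δ, hδ, h⟩ := hP c hc.1
  refine ⟨c - X.w * a, ⟨(part₁ J).sub_mem hc (mul_mem₁ X.w_mem ha), a₀, ha₀, ?_⟩, a, ha, by ring⟩
  have h2 : c - X.w * a - a₀ = δ := by rw [h]; ring
  rw [h2]
  exact hδ

/-- one step at zero -/
theorem step₀ {c : X.B} (hc : c ∈ part₀ J) :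
    ∃ p ∈ Gam₀ J, ∃ a ∈ part₀ J, c = p + X.x * a := by
  obtain ⟨a₀, ha₀, a, ha, δ, hδ, h⟩ := hP (((X.x⁻¹ : X.Bˣ) : X.B) * c) (J.mul_mem_left _ hc.1)
  refine ⟨c - X.x * a₀, ⟨(part₀ J).sub_mem hc (mul_mem₀ X.x_mem ha₀), a, ha, ?_⟩, a₀, ha₀, by ring⟩
  have h2 : c = X.x * (((X.x⁻¹ : X.Bˣ) : X.B) * c) := by
    rw [← mul_assoc, Units.mul_inv, one_mul]
  rw [h2, h]
  have h3 : (X.x : X.B) * (a₀ + X.w * a + δ) - X.x * a₀ - a =
      (X.x * X.w * a - a) + X.x * δ := by ring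
  rw [h3]
  exact (X.I * J).add_mem (xw_mul ha.1) ((X.I * J).mul_mem_left _ hδ)

/-- elements with `w ^ n v` regular at infinity modulo `I J` -/
theorem gen_aux₀ (n : ℕ) : ∀ v ∈ J, (∃ c ∈ part₁ J, (X.w : X.B) ^ n * v - c ∈ X.I * J) →
    ∃ s ∈ Submodule.span X.B₀ (Gam₀ J), ∃ c ∈ part₁ J, v - s - c ∈ X.I * J := by
  induction n with
  | zero =>
    rintro v hv ⟨c, hc, h⟩
    refine ⟨0, Submodule.zero_mem _, c, hc, ?_⟩
    simpa using h
  | succ n ih =>
    rintro v hv ⟨c, hc, h⟩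
    obtain ⟨p, ⟨hp, q, hq, hpq⟩, a, ha, hcp⟩ := step₁ hP hc
    -- `v' = v - x ^ (n + 1) q`
    have hqJ : q ∈ J := hq.1
    have hv' : v - (X.x : X.B) ^ (n + 1) * q ∈ J := J.sub_mem hv (J.mul_mem_left _ hqJ)
    have hpow : ∀ m : ℕ, (X.w : X.B) ^ m * (X.x ^ m * q) - q ∈ X.I * J := by
      intro m
      induction m with
      | zero => simp
      | succ m ihm =>
        have h5 : (X.w : X.B) ^ (m + 1) * (X.x ^ (m + 1) * q) - q =
            X.w ^ m * X.x ^ m * (X.x * X.w * q - q) + (X.w ^ m * (X.x ^ m * q) - q) := by ring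
        rw [h5]
        exact (X.I * J).add_mem ((X.I * J).mul_mem_left _ (xw_mul hqJ)) ihm
    obtain ⟨s, hs, c', hc', h'⟩ := ih _ hv' ⟨a, ha, by
      -- w * (w ^ n v' - a) ∈ IJ and w is a unit
      have h6 : (X.w : X.B) * (X.w ^ n * (v - X.x ^ (n + 1) * q) - a) ∈ X.I * J := by
        have h7 : (X.w : X.B) * (X.w ^ n * (v - X.x ^ (n + 1) * q) - a) =
            (X.w ^ (n + 1) * v - c) + (p - q) -
              (X.w ^ (n + 1) * (X.x ^ (n + 1) * q) - q) := by rw [hcp]; ring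
        rw [h7]
        exact (X.I * J).sub_mem ((X.I * J).add_mem h hpq) (hpow (n + 1))
      have h8 := (X.I * J).mul_mem_left ((X.w⁻¹ : X.Bˣ) : X.B) h6
      rwa [← mul_assoc, Units.inv_mul, one_mul] at h8⟩
    have hqG : q ∈ Gam₀ J := ⟨hq, p, hp, by
      have h9 : q - p = -(p - q) := by ring
      rw [h9]
      exact (X.I * J).neg_mem hpq⟩
    refine ⟨s + X.x ^ (n + 1) * q, Submodule.add_mem _ hs
      (mul_mem₀ (pow_mem X.x_mem _) (Submodule.subset_span hqG)), c', hc', ?_⟩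
    have h9 : v - (s + X.x ^ (n + 1) * q) - c' = v - X.x ^ (n + 1) * q - s - c' := by ring
    rw [h9]
    exact h'

/-- elements with `x ^ n v` regular at zero modulo `I J` -/
theorem gen_aux₁ (n : ℕ) : ∀ v ∈ J, (∃ c ∈ part₀ J, (X.x : X.B) ^ n * v - c ∈ X.I * J) →
    ∃ s ∈ Submodule.span X.B₁ (Gam₁ J), ∃ c ∈ part₀ J, v - s - c ∈ X.I * J := by
  induction n with
  | zero =>
    rintro v hv ⟨c, hc, h⟩
    refine ⟨0, Submodule.zero_mem _, c, hc, ?_⟩
    simpa using h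
  | succ n ih =>
    rintro v hv ⟨c, hc, h⟩
    obtain ⟨p, ⟨hp, q, hq, hpq⟩, a, ha, hcp⟩ := step₀ hP hc
    have hqJ : q ∈ J := hq.1
    have hv' : v - (X.w : X.B) ^ (n + 1) * q ∈ J := J.sub_mem hv (J.mul_mem_left _ hqJ)
    have hpow : ∀ m : ℕ, (X.x : X.B) ^ m * (X.w ^ m * q) - q ∈ X.I * J := by
      intro m
      induction m with
      | zero => simp
      | succ m ihm =>
        have h5 : (X.x : X.B) ^ (m + 1) * (X.w ^ (m + 1) * q) - q =
            X.x ^ m * X.w ^ m * (X.x * X.w * q - q) + (X.x ^ m * (X.w ^ m * q) - q) := by ring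
        rw [h5]
        exact (X.I * J).add_mem ((X.I * J).mul_mem_left _ (xw_mul hqJ)) ihm
    obtain ⟨s, hs, c', hc', h'⟩ := ih _ hv' ⟨a, ha, by
      have h6 : (X.x : X.B) * (X.x ^ n * (v - X.w ^ (n + 1) * q) - a) ∈ X.I * J := by
        have h7 : (X.x : X.B) * (X.x ^ n * (v - X.w ^ (n + 1) * q) - a) =
            (X.x ^ (n + 1) * v - c) + (p - q) -
              (X.x ^ (n + 1) * (X.w ^ (n + 1) * q) - q) := by rw [hcp]; ring
        rw [h7]
        exact (X.I * J).sub_mem ((X.I * J).add_mem h hpq) (hpow (n + 1))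
      have h8 := (X.I * J).mul_mem_left ((X.x⁻¹ : X.Bˣ) : X.B) h6
      rwa [← mul_assoc, Units.inv_mul, one_mul] at h8⟩
    have hqG : q ∈ Gam₁ J := ⟨hq, p, hp, by
      have h9 : q - p = -(p - q) := by ring
      rw [h9]
      exact (X.I * J).neg_mem hpq⟩
    refine ⟨s + X.w ^ (n + 1) * q, Submodule.add_mem _ hs
      (mul_mem₁ (pow_mem X.w_mem _) (Submodule.subset_span hqG)), c', hc', ?_⟩
    have h9 : v - (s + X.w ^ (n + 1) * q) - c' = v - X.w ^ (n + 1) * q - s - c' := by ring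
    rw [h9]
    exact h'

omit hP in
theorem span_Gam₀_le : Submodule.span X.B₀ (Gam₀ J) ≤ part₀ J :=
  Submodule.span_le.2 fun _ h => h.1

omit hP in
theorem span_Gam₁_le : Submodule.span X.B₁ (Gam₁ J) ≤ part₁ J :=
  Submodule.span_le.2 fun _ h => h.1

/-- (D2) -/
theorem part₀_le_span (loc : ∀ v ∈ J, ∃ n : ℕ, ∃ c ∈ part₁ J, (X.w : X.B) ^ n * v - c ∈ X.I * J) :
    part₀ J ≤ Submodule.span X.B₀ (Gam₀ J) := by
  intro v hv
  obtain ⟨n, hn⟩ := loc v hv.1
  obtain ⟨s, hs, c, hc, h⟩ := gen_aux₀ hP n v hv.1 hn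
  have h2 : v - s ∈ Gam₀ J := ⟨(part₀ J).sub_mem hv (span_Gam₀_le hs), c, hc, h⟩
  have h3 : v = (v - s) + s := by ring
  rw [h3]
  exact Submodule.add_mem _ (Submodule.subset_span h2) hs

/-- (D2) -/
theorem part₁_le_span (loc : ∀ v ∈ J, ∃ n : ℕ, ∃ c ∈ part₀ J, (X.x : X.B) ^ n * v - c ∈ X.I * J) :
    part₁ J ≤ Submodule.span X.B₁ (Gam₁ J) := by
  intro v hv
  obtain ⟨n, hn⟩ := loc v hv.1
  obtain ⟨s, hs, c, hc, h⟩ := gen_aux₁ hP n v hv.1 hn
  have h2 : v - s ∈ Gam₁ J := ⟨(part₁ J).sub_mem hv (span_Gam₁_le hs), c, hc, h⟩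
  have h3 : v = (v - s) + s := by ring
  rw [h3]
  exact Submodule.add_mem _ (Submodule.subset_span h2) hs

/-- (D2) -/
theorem le_span_Gam₀
    (loc₀ : ∀ v ∈ J, ∃ n : ℕ, ∃ c ∈ part₀ J, (X.x : X.B) ^ n * v - c ∈ X.I * J)
    (loc₁ : ∀ v ∈ J, ∃ n : ℕ, ∃ c ∈ part₁ J, (X.w : X.B) ^ n * v - c ∈ X.I * J) :
    J ≤ Ideal.span (Gam₀ J) ⊔ X.I * J := by
  intro v hv
  obtain ⟨n, c, hc, h⟩ := loc₀ v hv
  have h1 : c ∈ Ideal.span (Gam₀ J) := by
    have h2 := part₀_le_span hP loc₁ hc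
    refine Submodule.span_induction (p := fun x _ => x ∈ Ideal.span (Gam₀ J)) ?_ ?_ ?_ ?_ h2
    · intro x hx; exact Ideal.subset_span hx
    · exact Ideal.zero_mem _
    · intro x y _ _ hx hy; exact Ideal.add_mem _ hx hy
    · intro a x _ hx; exact Ideal.mul_mem_left _ (a : X.B) hx
  have h2 : (X.x : X.B) ^ n * v ∈ Ideal.span (Gam₀ J) ⊔ X.I * J := by
    have h3 : (X.x : X.B) ^ n * v = c + (X.x ^ n * v - c) := by ring
    rw [h3]
    exact Ideal.add_mem _ (Ideal.mem_sup_left h1) (Ideal.mem_sup_right h)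
  have h3 := (Ideal.span (Gam₀ J) ⊔ X.I * J).mul_mem_left ((((X.x⁻¹) ^ n : X.Bˣ)) : X.B) h2
  rwa [← mul_assoc, ← Units.val_pow_eq_pow_val, ← Units.val_mul, ← mul_pow, inv_mul_cancel,
    one_pow, Units.val_one, one_mul] at h3

end

theorem nonneg_top : NonNeg (X := X) ⊤ 1 1 := by
  intro f _
  have key : ∀ g : k[T;T⁻¹], ∃ a ∈ X.B₀, ∃ c ∈ X.B₁, X.res (a + X.w * c) = g := by
    intro g
    induction g using LaurentPolynomial.induction_on' with
    | add p q hp hq =>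
      obtain ⟨a, ha, c, hc, h⟩ := hp
      obtain ⟨a', ha', c', hc', h'⟩ := hq
      refine ⟨a + a', X.B₀.add_mem ha ha', c + c', X.B₁.add_mem hc hc', ?_⟩
      rw [← h, ← h', ← map_add]
      congr 1
      ring
    | C_mul_T n a =>
      obtain ⟨m, rfl | rfl⟩ := n.eq_nat_or_neg
      · refine ⟨algebraMap k X.B a * (X.x : X.B) ^ m,
          X.B₀.mul_mem (X.B₀.algebraMap_mem a) (pow_mem X.x_mem m), 0, X.B₁.zero_mem, ?_⟩
        rw [mul_zero, add_zero, map_mul, res_x_pow, AlgHom.commutes]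
        rfl
      · rcases Nat.eq_zero_or_pos m with rfl | hm
        · refine ⟨algebraMap k X.B a, X.B₀.algebraMap_mem a, 0, X.B₁.zero_mem, ?_⟩
          rw [mul_zero, add_zero, AlgHom.commutes]
          simp
        · obtain ⟨l, rfl⟩ : ∃ l, m = l + 1 := ⟨m - 1, by omega⟩
          refine ⟨0, X.B₀.zero_mem, algebraMap k X.B a * (X.w : X.B) ^ l,
            X.B₁.mul_mem (X.B₁.algebraMap_mem a) (pow_mem X.w_mem l), ?_⟩
          have h2 : (0 : X.B) + X.w * (algebraMap k X.B a * X.w ^ l) =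
              algebraMap k X.B a * X.w ^ (l + 1) := by ring
          rw [h2, map_mul, res_w_pow, AlgHom.commutes]
          rfl
  obtain ⟨a, ha, c, hc, h⟩ := key (X.res f)
  refine ⟨a, Submodule.mem_one.2 ⟨⟨a, ha⟩, rfl⟩, c, Submodule.mem_one.2 ⟨⟨c, hc⟩, rfl⟩,
    f - (a + X.w * c), ?_, by ring⟩
  rw [Ideal.mul_top, Nbhd.mem_I, map_sub, h, sub_self]

theorem pow_part₀_le {J : Ideal X.B} (m : ℕ) : ∀ f ∈ (part₀ J) ^ m, f ∈ J ^ m := by
  induction m with
  | zero => intro f _; rw [pow_zero, Ideal.one_eq_top]; trivial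
  | succ m ih =>
    intro f hf
    rw [pow_succ] at hf ⊢
    refine Submodule.mul_induction_on hf ?_ (fun a b ha hb => Ideal.add_mem _ ha hb)
    intro a ha b hb
    exact Ideal.mul_mem_mul (ih a ha) hb.1

theorem pow_part₁_le {J : Ideal X.B} (m : ℕ) : ∀ f ∈ (part₁ J) ^ m, f ∈ J ^ m := by
  induction m with
  | zero => intro f _; rw [pow_zero, Ideal.one_eq_top]; trivial
  | succ m ih =>
    intro f hf
    rw [pow_succ] at hf ⊢
    refine Submodule.mul_induction_on hf ?_ (fun a b ha hb => Ideal.add_mem _ ha hb)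
    intro a ha b hb
    exact Ideal.mul_mem_mul (ih a ha) hb.1

/-- (D3) -/
theorem nonneg_pow {J : Ideal X.B} (hgen : J ≤ Ideal.span (Gam₀ J) ⊔ X.I * J) (m : ℕ) :
    NonNeg (J ^ m) ((part₀ J) ^ m) ((part₁ J) ^ m) := by
  induction m with
  | zero =>
    rw [pow_zero, pow_zero, pow_zero, Ideal.one_eq_top]
    exact nonneg_top
  | succ m ih =>
    have hadd : ∀ f g : X.B,
        (∃ a ∈ (part₀ J) ^ (m + 1), ∃ c ∈ (part₁ J) ^ (m + 1), ∃ δ ∈ X.I * J ^ (m + 1),
          f = a + X.w * c + δ) →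
        (∃ a ∈ (part₀ J) ^ (m + 1), ∃ c ∈ (part₁ J) ^ (m + 1), ∃ δ ∈ X.I * J ^ (m + 1),
          g = a + X.w * c + δ) →
        ∃ a ∈ (part₀ J) ^ (m + 1), ∃ c ∈ (part₁ J) ^ (m + 1), ∃ δ ∈ X.I * J ^ (m + 1),
          f + g = a + X.w * c + δ := by
      rintro f g ⟨a, ha, c, hc, δ, hδ, rfl⟩ ⟨a', ha', c', hc', δ', hδ', rfl⟩
      exact ⟨a + a', Submodule.add_mem _ ha ha', c + c', Submodule.add_mem _ hc hc', δ + δ',
        Ideal.add_mem _ hδ hδ', by ring⟩
    have hIJ : ∀ f ∈ X.I * J ^ (m + 1),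
        ∃ a ∈ (part₀ J) ^ (m + 1), ∃ c ∈ (part₁ J) ^ (m + 1), ∃ δ ∈ X.I * J ^ (m + 1),
          f = a + X.w * c + δ := fun f hf =>
      ⟨0, Submodule.zero_mem _, 0, Submodule.zero_mem _, f, hf, by simp⟩
    intro f hf
    rw [pow_succ] at hf
    refine Submodule.mul_induction_on hf ?_ (fun a b ha hb => hadd a b ha hb)
    intro g hg h hh
    obtain ⟨y, hy, z, hz, hyz⟩ := Submodule.mem_sup.1 (hgen hh)
    rw [← hyz, mul_add]
    refine hadd _ _ ?_ (hIJ _ ?_)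
    · have key : ∀ g ∈ J ^ m,
          ∃ a ∈ (part₀ J) ^ (m + 1), ∃ c ∈ (part₁ J) ^ (m + 1), ∃ δ ∈ X.I * J ^ (m + 1),
            g * y = a + X.w * c + δ := by
        refine Submodule.span_induction (p := fun y _ => ∀ g ∈ J ^ m,
          ∃ a ∈ (part₀ J) ^ (m + 1), ∃ c ∈ (part₁ J) ^ (m + 1), ∃ δ ∈ X.I * J ^ (m + 1),
            g * y = a + X.w * c + δ) ?_ ?_ ?_ ?_ hy
        · rintro h ⟨hh0, h', hh1, hhh⟩ g hg
          obtain ⟨a, ha, c, hc, δ, hδ, hsum⟩ := ih g hg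
          refine ⟨a * h, ?_, c * h', ?_, X.w * c * (h - h') + δ * h, ?_, by rw [hsum]; ring⟩
          · rw [pow_succ]; exact Submodule.mul_mem_mul ha hh0
          · rw [pow_succ]; exact Submodule.mul_mem_mul hc hh1
          · refine Ideal.add_mem _ ?_ ?_
            · have hcJ := pow_part₁_le m c hc
              refine Submodule.mul_induction_on hhh ?_ ?_
              · intro i hi j hj
                have h2 : X.w * c * (i * j) = i * ((X.w * c) * j) := by ring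
                rw [h2, pow_succ]
                exact Ideal.mul_mem_mul hi (Ideal.mul_mem_mul (Ideal.mul_mem_left _ _ hcJ) hj)
              · intro i j hi hj
                rw [mul_add]
                exact Ideal.add_mem _ hi hj
            · rw [pow_succ, ← mul_assoc]
              exact Ideal.mul_mem_mul hδ hh0.1
        · intro g _
          refine ⟨0, Submodule.zero_mem _, 0, Submodule.zero_mem _, 0, Ideal.zero_mem _, by simp⟩
        · intro a b _ _ ha hb g hg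
          rw [mul_add]
          exact hadd _ _ (ha g hg) (hb g hg)
        · intro b a _ ha g hg
          rw [smul_eq_mul, ← mul_assoc]
          exact ha (g * b) (Ideal.mul_mem_right _ _ hg)
      exact key g hg
    · refine Submodule.mul_induction_on hz ?_ ?_
      · intro a ha j hj
        have h2 : g * (a * j) = a * (g * j) := by ring
        rw [h2, pow_succ]
        exact Ideal.mul_mem_mul ha (Ideal.mul_mem_mul hg hj)
      · intro a b ha hb
        rw [mul_add]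
        exact Ideal.add_mem _ ha hb

end Pool.Agent.DWC
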