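import Pool.Agent.DWX.Contract

/-!
# Contraction: from an ideal orthogonal to `𝒪_C(-1)` to global functions
-/

set_option autoImplicit false

open LaurentPolynomial

universe u

namespace Pool.Agent.DWC

variable {k : Type u} [Field k]

variable {X : Nbhd k}

/-- The sections over `U₀` of an ideal sheaf. -/
def part₀ (J : Ideal X.B) : Submodule X.B₀ X.B where
  carrier := {b | b ∈ J ∧ b ∈ X.B₀}
  add_mem' := fun ha hb => ⟨J.add_mem ha.1 hb.1, X.B₀.add_mem ha.2 hb.2⟩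
  zero_mem' := ⟨J.zero_mem, X.B₀.zero_mem⟩
  smul_mem' := fun c b hb => by
    refine ⟨?_, ?_⟩
    · rw [Algebra.smul_def]; exact J.mul_mem_left _ hb.1
    · rw [Algebra.smul_def]; exact X.B₀.mul_mem c.2 hb.2

/-- The sections over `U₁` of an ideal sheaf. -/
def part₁ (J : Ideal X.B) : Submodule X.B₁ X.B where
  carrier := {b | b ∈ J ∧ b ∈ X.B₁}
  add_mem' := fun ha hb => ⟨J.add_mem ha.1 hb.1, X.B₁.add_mem ha.2 hb.2⟩
  zero_mem' := ⟨J.zero_mem, X.B₁.zero_mem⟩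
  smul_mem' := fun c b hb => by
    refine ⟨?_, ?_⟩
    · rw [Algebra.smul_def]; exact J.mul_mem_left _ hb.1
    · rw [Algebra.smul_def]; exact X.B₁.mul_mem c.2 hb.2

theorem mem_part₀ {J : Ideal X.B} {b : X.B} : b ∈ part₀ J ↔ b ∈ J ∧ b ∈ X.B₀ := Iff.rfl
theorem mem_part₁ {J : Ideal X.B} {b : X.B} : b ∈ part₁ J ↔ b ∈ J ∧ b ∈ X.B₁ := Iff.rfl

theorem smul₀_def (c : X.B₀) (b : X.B) : c • b = (c : X.B) * b := rfl
theorem smul₁_def (c : X.B₁) (b : X.B) : c • b = (c : X.B) * b := rfl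

theorem mul_mem₀ {F : Submodule X.B₀ X.B} {c b : X.B} (hc : c ∈ X.B₀) (hb : b ∈ F) :
    c * b ∈ F := F.smul_mem (⟨c, hc⟩ : X.B₀) hb
theorem mul_mem₁ {F : Submodule X.B₁ X.B} {c b : X.B} (hc : c ∈ X.B₁) (hb : b ∈ F) :
    c * b ∈ F := F.smul_mem (⟨c, hc⟩ : X.B₁) hb

/-- `P₂ / P₁` is isomorphic to a finite direct sum of copies of `𝒪_C(d)`, for ideals of `B`. -/
def LayerI (X : Nbhd k) (d : ℤ) (P₁ P₂ : Ideal X.B) : Prop :=
  ∃ (r : ℕ) (θ : P₂ →+ (Fin r → k[T;T⁻¹])),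
    (∀ (b : X.B) (p : P₂) (i : Fin r), θ (b • p) i = X.res b * θ p i) ∧
    Function.Surjective θ ∧ (∀ p : P₂, θ p = 0 ↔ (p : X.B) ∈ P₁) ∧
    (∀ f : Fin r → k[T;T⁻¹], (∃ p : P₂, (p : X.B) ∈ X.B₀ ∧ θ p = f) ↔ ∀ i, f i ∈ Reg0 k) ∧
    (∀ f : Fin r → k[T;T⁻¹], (∃ p : P₂, (p : X.B) ∈ X.B₁ ∧ θ p = f) ↔ ∀ i, f i ∈ RegInf k d)

/-- `I / J` is an iterated extension of `𝒪_C(-1)`. -/
def Chain (J : Ideal X.B) : Prop :=
  ∃ (L : ℕ) (P : ℕ → Ideal X.B), P 0 = J ∧ P L = X.I ∧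
    ∀ j < L, P j ≤ P (j + 1) ∧ LayerI X (-1) (P j) (P (j + 1))

theorem T_mem_Reg0 {i : ℤ} (hi : 0 ≤ i) : (T i : k[T;T⁻¹]) ∈ Reg0 k := by
  intro j hj
  rw [show (T i : k[T;T⁻¹]) = C 1 * T i by simp, ← single_eq_C_mul_T]
  rw [AddMonoidAlgebra.coeff_single, Finsupp.single_apply, if_neg (by omega)]

theorem T_mem_RegInf {i d : ℤ} (hi : i ≤ d) : (T i : k[T;T⁻¹]) ∈ RegInf k d := by
  intro j hj
  rw [show (T i : k[T;T⁻¹]) = C 1 * T i by simp, ← single_eq_C_mul_T]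
  rw [AddMonoidAlgebra.coeff_single, Finsupp.single_apply, if_neg (by omega)]

theorem res_x_pow (n : ℕ) : X.res ((X.x : X.B) ^ n) = T n := by
  rw [map_pow, X.res_x, T_pow, mul_one]

theorem res_w_pow (n : ℕ) : X.res ((X.w : X.B) ^ n) = T (-n) := by
  rw [map_pow, X.res_w, T_pow]; congr 1; ring

theorem res_surj : Function.Surjective X.res := by
  intro f
  induction f using LaurentPolynomial.induction_on' with
  | add p q hp hq =>
    obtain ⟨a, ha⟩ := hp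
    obtain ⟨b, hb⟩ := hq
    exact ⟨a + b, by rw [map_add, ha, hb]⟩
  | C_mul_T n a =>
    obtain ⟨m, rfl | rfl⟩ := n.eq_nat_or_neg
    · refine ⟨algebraMap k X.B a * (X.x : X.B) ^ m, ?_⟩
      rw [map_mul, res_x_pow, AlgHom.commutes]
      rfl
    · refine ⟨algebraMap k X.B a * (X.w : X.B) ^ m, ?_⟩
      rw [map_mul, res_w_pow, AlgHom.commutes]
      rfl

/-- The data of a layer `𝒪_C(-1) ⊕ ⋯ ⊕ 𝒪_C(-1)`. -/
theorem LayerI.data {P₁ P₂ : Ideal X.B} (h : LayerI X (-1) P₁ P₂) :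
    ∃ (r : ℕ) (e e' : Fin r → X.B), (∀ i, e i ∈ P₂ ∧ e i ∈ X.B₀) ∧
      (∀ i, e' i ∈ P₂ ∧ e' i ∈ X.B₁) ∧ (∀ i, (X.w : X.B) * e i - e' i ∈ P₁) ∧
      (∀ p ∈ P₂, ∃ b : Fin r → X.B, p - ∑ i, b i * e i ∈ P₁) ∧
      ∀ a ∈ X.I, ∀ p ∈ P₂, a * p ∈ P₁ := by
  obtain ⟨r, θ, hθ, -, hker, h0, h1⟩ := h
  have he : ∀ i, ∃ p : P₂, (p : X.B) ∈ X.B₀ ∧ θ p = Pi.single i (1 : k[T;T⁻¹]) := by
    intro i
    refine (h0 _).2 fun j => ?_
    by_cases hj : j = i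
    · subst hj
      rw [Pi.single_eq_same]
      exact T_mem_Reg0 (i := 0) le_rfl
    · rw [Pi.single_eq_of_ne hj]
      intro l _
      simp
  have he' : ∀ i, ∃ p : P₂, (p : X.B) ∈ X.B₁ ∧ θ p = Pi.single i (T (-1) : k[T;T⁻¹]) := by
    intro i
    refine (h1 _).2 fun j => ?_
    by_cases hj : j = i
    · subst hj
      rw [Pi.single_eq_same]
      exact T_mem_RegInf le_rfl
    · rw [Pi.single_eq_of_ne hj]
      intro l _
      simp
  choose e he0 he1 using he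
  choose e' he'0 he'1 using he'
  have hsm : ∀ (b : X.B) (p : P₂), θ (b • p) = fun i => X.res b * θ p i := fun b p => by
    funext i
    exact hθ b p i
  refine ⟨r, fun i => e i, fun i => e' i, fun i => ⟨(e i).2, he0 i⟩, fun i => ⟨(e' i).2, he'0 i⟩,
    fun i => ?_, fun p hp => ?_, fun a ha p hp => ?_⟩
  · have h2 : θ ((X.w : X.B) • e i - e' i) = 0 := by
      rw [map_sub, hsm, he1, he'1, X.res_w]
      funext j
      by_cases hj : j = i
      · subst hj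
        simp
      · simp [Pi.single_eq_of_ne hj]
    have h3 := (hker _).1 h2
    exact h3
  · choose b hb using fun i => res_surj (X := X) (θ ⟨p, hp⟩ i)
    refine ⟨b, ?_⟩
    have h2 : θ (⟨p, hp⟩ - ∑ i, b i • e i) = 0 := by
      rw [map_sub, map_sum]
      funext j
      simp only [Pi.sub_apply, Finset.sum_apply, Pi.zero_apply, hθ, he1, hb]
      rw [Finset.sum_eq_single j]
      · simp
      · intro i _ hij
        rw [Pi.single_eq_of_ne (Ne.symm hij), mul_zero]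
      · intro hj
        exact absurd (Finset.mem_univ j) hj
    have h3 := (hker _).1 h2
    simpa using h3
  · have h2 : θ (a • (⟨p, hp⟩ : P₂)) = 0 := by
      rw [hsm, Nbhd.mem_I.1 ha]
      funext j
      simp
    exact (hker _).1 h2

/-- `f` is a sum of sections of `F₀`, of `F₁` and of `G`. -/
def Dec (F₀ : Submodule X.B₀ X.B) (F₁ : Submodule X.B₁ X.B) (G : Ideal X.B) (f : X.B) : Prop :=
  ∃ a ∈ F₀, ∃ c ∈ F₁, ∃ δ ∈ G, f = a + c + δ

section Dec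

variable {F₀ F₀' : Submodule X.B₀ X.B} {F₁ F₁' : Submodule X.B₁ X.B} {G G' : Ideal X.B}
  {f g : X.B}

theorem Dec.zero : Dec F₀ F₁ G (0 : X.B) :=
  ⟨0, F₀.zero_mem, 0, F₁.zero_mem, 0, G.zero_mem, by simp⟩

theorem Dec.add (hf : Dec F₀ F₁ G f) (hg : Dec F₀ F₁ G g) : Dec F₀ F₁ G (f + g) := by
  obtain ⟨a, ha, c, hc, δ, hδ, rfl⟩ := hf
  obtain ⟨a', ha', c', hc', δ', hδ', rfl⟩ := hg
  exact ⟨a + a', F₀.add_mem ha ha', c + c', F₁.add_mem hc hc', δ + δ', G.add_mem hδ hδ', by ring⟩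

theorem Dec.of₀ (hf : f ∈ F₀) : Dec F₀ F₁ G f :=
  ⟨f, hf, 0, F₁.zero_mem, 0, G.zero_mem, by simp⟩

theorem Dec.of₁ (hf : f ∈ F₁) : Dec F₀ F₁ G f :=
  ⟨0, F₀.zero_mem, f, hf, 0, G.zero_mem, by simp⟩

theorem Dec.ofG (hf : f ∈ G) : Dec F₀ F₁ G f :=
  ⟨0, F₀.zero_mem, 0, F₁.zero_mem, f, hf, by simp⟩

theorem Dec.sum {ι : Type*} {s : Finset ι} {f : ι → X.B} (h : ∀ i ∈ s, Dec F₀ F₁ G (f i)) :
    Dec F₀ F₁ G (∑ i ∈ s, f i) := by
  classical
  induction s using Finset.induction_on with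
  | empty => simpa using Dec.zero
  | insert a s ha ih =>
    rw [Finset.sum_insert ha]
    exact (h a (Finset.mem_insert_self a s)).add
      (ih fun i hi => h i (Finset.mem_insert_of_mem hi))

theorem Dec.mono (h0 : F₀ ≤ F₀') (h1 : F₁ ≤ F₁') (hG : G ≤ G') (hf : Dec F₀ F₁ G f) :
    Dec F₀' F₁' G' f := by
  obtain ⟨a, ha, c, hc, δ, hδ, rfl⟩ := hf
  exact ⟨a, h0 ha, c, h1 hc, δ, hG hδ, rfl⟩

theorem Dec.bind (hf : Dec F₀ F₁ G f) (h : ∀ g ∈ G, Dec F₀ F₁ G' g) : Dec F₀ F₁ G' f := by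
  obtain ⟨a, ha, c, hc, δ, hδ, rfl⟩ := hf
  exact ((Dec.of₀ ha).add (Dec.of₁ hc)).add (h δ hδ)

end Dec

/-- `F` is nonnegative: `H¹(F|_C (-1)) = 0`. -/
def NonNeg (F : Ideal X.B) (F₀ : Submodule X.B₀ X.B) (F₁ : Submodule X.B₁ X.B) : Prop :=
  ∀ f ∈ F, ∃ a ∈ F₀, ∃ c ∈ F₁, ∃ δ ∈ X.I * F, f = a + X.w * c + δ

/-- (D1) -/
theorem dec_I_mul {J : Ideal X.B} (hJ : Chain J) {F : Ideal X.B} {F₀ : Submodule X.B₀ X.B}
    {F₁ : Submodule X.B₁ X.B} (h0 : ∀ f ∈ F₀, f ∈ F) (h1 : ∀ f ∈ F₁, f ∈ F)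
    (hF : NonNeg F F₀ F₁) :
    ∀ f ∈ X.I * F, Dec (part₀ X.I * F₀) (part₁ X.I * F₁) (J * F) f := by
  obtain ⟨L, P, hP0, hPL, hP⟩ := hJ
  have hle : ∀ j ≤ L, P j ≤ X.I := by
    intro j hj
    rw [← hPL]
    induction hj using Nat.decreasingInduction with
    | self => exact le_rfl
    | of_succ m hm ih => exact (hP m hm).1.trans ih
  have key : ∀ j ≤ L, ∀ f ∈ P j * F, Dec (part₀ X.I * F₀) (part₁ X.I * F₁) (J * F) f := by
    intro j
    induction j with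
    | zero =>
      intro _ f hf
      rw [hP0] at hf
      exact Dec.ofG hf
    | succ j ih =>
      intro hj f hf
      have ih' := ih (by omega)
      obtain ⟨r, e, e', he, he', hee, hgen, hI⟩ := (hP j (by omega)).2.data
      refine Submodule.mul_induction_on hf ?_ (fun a b ha hb => ha.add hb)
      intro p hp g hg
      obtain ⟨b, hb⟩ := hgen p hp
      have h2 : p * g = (p - ∑ i, b i * e i) * g + ∑ i, e i * (b i * g) := by
        rw [sub_mul, Finset.sum_mul, sub_add_eq_add_sub, eq_sub_iff_add_eq]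
        congr 1
        exact Finset.sum_congr rfl fun i _ => by ring
      rw [h2]
      refine (ih' _ (Ideal.mul_mem_mul hb hg)).add (Dec.sum fun i _ => ?_)
      obtain ⟨a, ha, c, hc, δ, hδ, hsum⟩ := hF (b i * g) (F.mul_mem_left _ hg)
      rw [hsum]
      have h3 : e i * (a + X.w * c + δ) =
          e i * a + e' i * c + ((X.w * e i - e' i) * c + e i * δ) := by ring
      rw [h3]
      refine ((Dec.of₀ (Submodule.mul_mem_mul (mem_part₀.2 ⟨hle _ hj (he i).1, (he i).2⟩) ha)).add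
        (Dec.of₁ (Submodule.mul_mem_mul (mem_part₁.2 ⟨hle _ hj (he' i).1, (he' i).2⟩) hc))).add (ih' _ ?_)
      refine (P j * F).add_mem (Ideal.mul_mem_mul (hee i) (h1 c hc)) ?_
      refine Submodule.mul_induction_on hδ ?_ ?_
      · intro a' ha' g' hg'
        have h4 : e i * (a' * g') = (a' * e i) * g' := by ring
        rw [h4]
        exact Ideal.mul_mem_mul (hI a' ha' _ (he i).1) hg'
      · intro y z hy hz
        rw [mul_add]
        exact (P j * F).add_mem hy hz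
  intro f hf
  rw [← hPL] at hf
  exact key L le_rfl f hf

theorem part₀_mul_le {J : Ideal X.B} {F₀ : Submodule X.B₀ X.B} : part₀ J * F₀ ≤ F₀ := by
  rw [Submodule.mul_le]
  intro a ha b hb
  exact mul_mem₀ ha.2 hb

theorem part₁_mul_le {J : Ideal X.B} {F₁ : Submodule X.B₁ X.B} : part₁ J * F₁ ≤ F₁ := by
  rw [Submodule.mul_le]
  intro a ha b hb
  exact mul_mem₁ ha.2 hb

/-- (D1) -/
theorem dec_of_nonneg {J : Ideal X.B} (hJ : Chain J) {F : Ideal X.B} {F₀ : Submodule X.B₀ X.B}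
    {F₁ : Submodule X.B₁ X.B} (h0 : ∀ f ∈ F₀, f ∈ F) (h1 : ∀ f ∈ F₁, f ∈ F)
    (hF : NonNeg F F₀ F₁) : ∀ f ∈ F, Dec F₀ F₁ (J * F) f := by
  intro f hf
  obtain ⟨a, ha, c, hc, δ, hδ, rfl⟩ := hF f hf
  refine ((Dec.of₀ ha).add (Dec.of₁ (mul_mem₁ X.w_mem hc))).add ?_
  exact (dec_I_mul hJ h0 h1 hF δ hδ).mono part₀_mul_le part₁_mul_le le_rfl

end Pool.Agent.DWC
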